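import Pool.Agent.W2helper96.F5.Cor

/-!
# MP_c076ed_nt: `x ^ d + c` for `d ≡ 16 mod 40` and `d ≡ 36 mod 60`, all rational `c`

* Let `d ≡ 16 mod 40` or `d ≡ 36 mod 60`, for example `d = 16, 36, 56, 96, 136, 156, 176, ...`, and let
  `d < 65416` (or let at most two of the odd primes `p ∣ d` with `5 ∤ ord_p d` be congruent to one
  modulo `2 ^ (v_2 (d) - 1)`, for `d ≡ 36 mod 60` modulo `2 ^ v_2 (d)`).
  Then for ALL rational numbers `c ≠ 0, -1` the polynomial `x ^ d + c` has at most one rational periodic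
  point and at most two rational preperiodic points, and for all `c` at most three of the latter.
* More generally let `f(x) = a (x - u) ^ d + w` with rational numbers `a ≠ 0`, `u`, `w` (every
  polynomial of degree `d` over `ℚ` with a single finite critical point), `8 ∣ d`, `m = d / 4`, or
  `12 ∣ d`, `m = d / 2`, and let `t = a (w - u) ^ (d - 1)` be its parameter (an invariant of the
  conjugacy class; `t = c ^ (d - 1)` for `x ^ d + c`). The primes dividing the denominator of `t` are
  the primes of bad reduction; let `M` be the exponent of such a prime `p`. An odd prime `p` of bad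
  reduction with `p ≡ 1 mod 2 ^ (v_2 (m) + 1)` is called exceptional unless `5 d ∣ M`,
  `5 ∣ v_p (d)` and `d v_p (d) < M`, and exceptional of the first kind unless `5 d ∣ M` and
  `d v_p (d) < M`. If no prime is exceptional of the first kind and at most two primes are exceptional,
  then `f` has at most three rational preperiodic points, at most one rational periodic point if
  `t ≠ 0, -1`, and at most two rational preperiodic points if also `t ≠ -2`.
  For `5 ∣ d - 1` no prime is exceptional of the first kind for `x ^ d + c`, and the exceptional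
  primes divide `d`.
* For all degrees divisible by four or six there is an explicit bound for the number of rational
  periodic points in terms of the exceptional primes, which for `x ^ d + c` and the families
  `a = 2 ^ i r ^ 5`, `5 ∣ d - 1`, and `(A x ^ d + B) / (2 ^ s v ^ 5)` depends on `d` only.

This is the analogue for the exponent five of `UnicriticalCubes` (helper83), where the valuations of
`t` are divisible by `3 d` and `d ≡ 1 mod 3`. The degrees `36, 56, 96, 156, 176, ...` are not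
congruent to one modulo three.

Proof. In a suitable coordinate the preperiodic points are integers without a common factor and
`f(x) = (A x ^ d + B) / V` with `gcd (A B, V) = 1`; the denominator of `t` is `V ^ d`. For periodic
points `X ≠ Y` the number `(X ^ d - Y ^ d) / (X - Y)` has only prime factors dividing `V`, and by
lifting the exponent the valuations of `X ^ d - Y ^ d` at these primes are divisible by five, if
they are odd and not exceptional. (Odd primes not congruent to one modulo `2 ^ (v_2 (m) + 1)` divide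
`X ^ m - Y ^ m`.) Let `σ = X ^ (d / 4)`, `θ = Y ^ (d / 4)` if `8 ∣ d`. If `V` is even, then
`σ ≡ θ ≡ 1 mod 4`, `σ + θ = 2 α ^ 5` and `σ ^ 2 + θ ^ 2 = 2 β ^ 5`, so that
`β ^ 5 - α ^ 10 = ((σ - θ) / 2) ^ 2`. If `V` is odd, `σ + θ = α ^ 5` and `σ ^ 2 + θ ^ 2 = β ^ 5` are odd,
and `α ^ 10 - β ^ 5 = 2 σ θ` is twice a square. Let `σ = X ^ (d / 6)`, `θ = Y ^ (d / 6)` if `12 ∣ d`. With
`σ ^ 2 - σ θ + θ ^ 2 = β ^ 5` one gets `β ^ 5 - α ^ 10 = 3 ((σ - θ) / 2) ^ 2` for even `V`, and
`α ^ 10 - β ^ 5 = 3 σ θ`, three times a square, for odd `V`. All of these are excluded by a theorem on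
the equation `x ^ 5 - y ^ 5 = k z ^ 2`, `k = 1, 2, 3`: it has no solution with `x ≠ y` coprime and odd
and `x ≡ y mod 4`. For then `(x ^ 5 - y ^ 5) / (x - y)` is congruent to five modulo eight, it is five
times a square, and the curve `5 t ^ 2 = x ^ 4 + x ^ 3 y + x ^ 2 y ^ 2 + x y ^ 3 + y ^ 4` has only trivial
points with these congruences (descent, module `Pool/Agent/W2helper96/QP/Dio5`). An exceptional
prime `p` which is not of the first kind can obstruct this for the pair `X, Y` only if `X ≢ Y` and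
`f(X) ≡ f(Y)` modulo `p`; two such primes can not obstruct all the pairs in a finite invariant set of
periodic points. A preimage of `-X`, `X` a fixed point, leads to an equation `Θ ^ d - b ^ d = ± V` or
`± 2 V`, which is excluded in the same way.
-/

set_option autoImplicit false

namespace Pool.Agent.Results.MP_c076ed_nt.FifthPowers

open Pool.Agent.W2helper83 Pool.Agent.W2helper96

/-- The polynomial `a (x - u) ^ d + w` as a map on `ℚ`. -/
def unicritical (d : ℕ) (a u w : ℚ) : ℚ → ℚ := fun x => a * (x - u) ^ d + w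

/-- The rational periodic points of `f`. -/
def periodic (f : ℚ → ℚ) : Set ℚ := {x | ∃ n : ℕ, 0 < n ∧ f^[n] x = x}

/-- The rational preperiodic points of `f`. -/
def preperiodic (f : ℚ → ℚ) : Set ℚ := {x | ∃ m n : ℕ, m < n ∧ f^[m] x = f^[n] x}

/-- The parameter `t = a (w - u) ^ (d - 1)` of `a (x - u) ^ d + w`. -/
def par (d : ℕ) (a u w : ℚ) : ℚ := a * (w - u) ^ (d - 1)

/-- The exceptional primes: the odd primes `p` dividing the denominator of `t`, say with
multiplicity `M`, such that `p ≡ 1 mod 2 ^ (v_2(m) + 1)` and not (`5 d ∣ M`, `5 ∣ v_p(d)` and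
`d v_p(d) < M`). -/
def exceptional (d m : ℕ) (t : ℚ) : Finset ℕ :=
  t.den.primeFactors.filter fun p => p ≠ 2 ∧ 2 ^ (padicValNat 2 m + 1) ∣ p - 1 ∧
    ¬ (5 * d ∣ padicValNat p t.den ∧ 5 ∣ padicValNat p d ∧
      d * padicValNat p d < padicValNat p t.den)

/-- The exceptional primes of the first kind: the odd primes `p` dividing the denominator of `t`,
say with multiplicity `M`, such that `p ≡ 1 mod 2 ^ (v_2(m) + 1)` and not (`5 d ∣ M` and
`d v_p(d) < M`). -/
def firstKind (d m : ℕ) (t : ℚ) : Finset ℕ :=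
  t.den.primeFactors.filter fun p => p ≠ 2 ∧ 2 ^ (padicValNat 2 m + 1) ∣ p - 1 ∧
    ¬ (5 * d ∣ padicValNat p t.den ∧ d * padicValNat p d < padicValNat p t.den)

/-- The odd primes `p` dividing `d` with `p ≡ 1 mod 2 ^ (v_2(m) + 1)`. -/
def relevant (d m : ℕ) : Finset ℕ :=
  d.primeFactors.filter fun p => p ≠ 2 ∧ 2 ^ (padicValNat 2 m + 1) ∣ p - 1

/-- The families: `a = 2 ^ i r ^ 5` and `5 ∣ d - 1`, or `5 d ∣ v_p(den t)` for all odd primes
`p ≡ 1 mod 2 ^ (v_2(m) + 1)`. -/
def FifthFamily (d m : ℕ) (a u w : ℚ) : Prop :=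
  (5 ∣ d - 1 ∧ ∃ (i : ℤ) (r : ℚ), a = 2 ^ i * r ^ 5) ∨
    ∀ p : ℕ, p.Prime → p ≠ 2 → 2 ^ (padicValNat 2 m + 1) ∣ p - 1 →
      5 * d ∣ padicValNat p (par d a u w).den

/-- Every preperiodic point `x` or its reflection `2 u - x` is periodic, or `x = u`, `t = -2`. -/
def ShortTails (d : ℕ) (a u w : ℚ) : Prop :=
  ∀ x ∈ preperiodic (unicritical d a u w), x ∈ periodic (unicritical d a u w) ∨
    2 * u - x ∈ periodic (unicritical d a u w) ∨ (x = u ∧ par d a u w = -2)

/-- At most three preperiodic points, at most one periodic point if `t ≠ 0, -1`, at most two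
preperiodic points if also `t ≠ -2`, and short tails. -/
def AtMostThree (d : ℕ) (a u w : ℚ) : Prop :=
  (preperiodic (unicritical d a u w)).encard ≤ 3 ∧
  (par d a u w ≠ 0 → par d a u w ≠ -1 → (periodic (unicritical d a u w)).encard ≤ 1) ∧
  (par d a u w ≠ 0 → par d a u w ≠ -1 → par d a u w ≠ -2 →
    (preperiodic (unicritical d a u w)).encard ≤ 2) ∧ ShortTails d a u w

theorem shortTails_of {d : ℕ} {a u w : ℚ} (h : UC.Shape d a (w - u)) : ShortTails d a u w := by
  intro x hx
  rcases h (x - u) (UC.mem_pre.1 hx) with h | h | ⟨h1, h2⟩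
  · exact Or.inl (UC.mem_per.2 h)
  · refine Or.inr (Or.inl (UC.mem_per.2 ?_))
    have e : 2 * u - x - u = -(x - u) := by ring
    rw [e]; exact h
  · exact Or.inr (Or.inr ⟨sub_eq_zero.1 h1, h2⟩)

theorem atMostThree_of {d m : ℕ} {a u w : ℚ} (hs : UC.Str d m) (ha : a ≠ 0) {p1 p2 : ℕ}
    (hH : F5.HypS d m a (w - u) p1 p2) : AtMostThree d a u w :=
  ⟨UC.transfer (fun x => UC.mem_pre) (F5.s_three hs ha hH),
    fun h0 h1 => by
      have := UC.transfer (P := periodic (unicritical d a u w)) (fun x => UC.mem_per)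
        (F5.s_one hs ha hH h0 h1)
      exact_mod_cast this,
    fun h0 h1 h2 => UC.transfer (fun x => UC.mem_pre) (F5.s_two hs ha hH h0 h1 h2),
    shortTails_of (F5.s_shape hs ha hH)⟩

theorem uni_zero (d : ℕ) (c : ℚ) : (fun x : ℚ => x ^ d + c) = unicritical d 1 0 c := by
  funext x
  unfold unicritical
  ring

theorem par_one (d : ℕ) (c : ℚ) : par d 1 0 c = c ^ (d - 1) := by
  unfold par
  rw [one_mul, sub_zero]

/-- the conclusion for `x ^ d + c` -/
theorem mono_of {d : ℕ} (hd : 4 ∣ d) (hd0 : d ≠ 0) {c : ℚ} (h : AtMostThree d 1 0 c) :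
    (preperiodic (fun x => x ^ d + c)).encard ≤ 3 ∧
      (c ≠ 0 → c ≠ -1 → (periodic (fun x => x ^ d + c)).encard ≤ 1 ∧
        (preperiodic (fun x => x ^ d + c)).encard ≤ 2) := by
  obtain ⟨h1, h2, h3, -⟩ := h
  rw [uni_zero]
  refine ⟨h1, fun hc0 hc1 => ?_⟩
  have hodd : Odd (d - 1) := by
    obtain ⟨q, hq⟩ := hd
    exact ⟨2 * q - 1, by omega⟩
  have hd3 : 2 ≤ d - 1 := by omega
  have e0 : par d 1 0 c ≠ 0 := by rw [par_one]; exact pow_ne_zero _ hc0
  have e1 : par d 1 0 c ≠ -1 := by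
    rw [par_one]
    intro h
    apply hc1
    apply hodd.strictMono_pow.injective
    change c ^ (d - 1) = (-1) ^ (d - 1)
    rw [h, hodd.neg_one_pow]
  have e2 : par d 1 0 c ≠ -2 := by
    rw [par_one]
    intro h
    have hfact : Fact (Nat.Prime 2) := ⟨Nat.prime_two⟩
    have hv := congrArg (padicValRat 2) h
    rw [padicValRat.pow, padicValRat.neg] at hv
    have h2' : padicValRat 2 (2 : ℚ) = 1 := by
      have : (2 : ℚ) = ((2 : ℕ) : ℚ) := by norm_num
      rw [this]
      exact padicValRat.self (by norm_num)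
    rw [h2'] at hv
    have hdv : ((d - 1 : ℕ) : ℤ) ∣ 1 := ⟨_, hv.symm⟩
    have := Int.le_of_dvd one_pos hdv
    omega
  exact ⟨h2 e0 e1, h3 e0 e1 e2⟩

theorem zpow_zero' : (2 : ℚ) ^ (0 : ℤ) = 1 := by norm_num

/-- **Main theorem.** -/
theorem result :
    -- (1) degrees congruent to `16` modulo `40` or `36` modulo `60`, `a = 2 ^ i`
    (∀ d m : ℕ, (d % 40 = 16 ∧ m = d / 4) ∨ (d % 60 = 36 ∧ m = d / 2) →
      (((relevant d m).filter fun p => ¬ 5 ∣ padicValNat p d).card ≤ 2 ∨ d < 65416) →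
      (∀ (i : ℤ) (u w : ℚ), AtMostThree d (2 ^ i) u w) ∧
      ∀ c : ℚ, (preperiodic (fun x => x ^ d + c)).encard ≤ 3 ∧
        (c ≠ 0 → c ≠ -1 → (periodic (fun x => x ^ d + c)).encard ≤ 1 ∧
          (preperiodic (fun x => x ^ d + c)).encard ≤ 2)) ∧
    -- (2) at most two exceptional primes, none of the first kind
    (∀ (d m : ℕ) (a u w : ℚ), d ≠ 0 → a ≠ 0 → (8 ∣ d ∧ m = d / 4) ∨ (12 ∣ d ∧ m = d / 2) →
      firstKind d m (par d a u w) = ∅ → (exceptional d m (par d a u w)).card ≤ 2 →
        AtMostThree d a u w) ∧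
    -- the exceptional primes of `(A x ^ d + B) / V`
    (∀ (d m V : ℕ) (A B : ℤ), d ≠ 0 → 0 < V → IsCoprime (A * B) (V : ℤ) →
      exceptional d m (par d ((A : ℚ) / (V : ℚ)) 0 ((B : ℚ) / (V : ℚ))) =
        V.primeFactors.filter fun p => p ≠ 2 ∧ 2 ^ (padicValNat 2 m + 1) ∣ p - 1 ∧
          ¬ (5 ∣ padicValNat p V ∧ 5 ∣ padicValNat p d ∧ padicValNat p d < padicValNat p V)) ∧
    -- (3) the number of periodic points in terms of the exceptional primes
    (∀ (d : ℕ) (a u w : ℚ), d ≠ 0 → a ≠ 0 →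
      (4 ∣ d → (periodic (unicritical d a u w)).encard ≤
        ((2 * ∏ p ∈ exceptional d (d / 4) (par d a u w), Nat.gcd 4 (p - 1) : ℕ) : ℕ∞)) ∧
      (4 ∣ d → firstKind d (d / 4) (par d a u w) = ∅ →
        (exceptional d (d / 4) (par d a u w)).card ≤ 1 →
        (periodic (unicritical d a u w)).encard ≤ 4) ∧
      (8 ∣ d → (periodic (unicritical d a u w)).encard ≤
        ((max 2 (∏ p ∈ exceptional d (d / 4) (par d a u w), Nat.gcd 4 (p - 1)) : ℕ) : ℕ∞)) ∧
      (6 ∣ d → ¬ 3 ^ 5 ∣ d → (periodic (unicritical d a u w)).encard ≤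
        ((2 * 2 ^ (exceptional d (d / 2) (par d a u w)).card : ℕ) : ℕ∞)) ∧
      (12 ∣ d → (periodic (unicritical d a u w)).encard ≤
        ((max 2 (2 ^ (exceptional d (d / 2) (par d a u w)).card) : ℕ) : ℕ∞))) ∧
    -- (4) bounds in terms of `d` in the families of fifth powers
    (∀ (d : ℕ) (a u w : ℚ), d ≠ 0 → a ≠ 0 →
      (4 ∣ d → FifthFamily d (d / 4) a u w → (periodic (unicritical d a u w)).encard ≤
        ((2 * ∏ p ∈ relevant d (d / 4), Nat.gcd 4 (p - 1) : ℕ) : ℕ∞)) ∧
      (6 ∣ d → ¬ 3 ^ 5 ∣ d → FifthFamily d (d / 2) a u w →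
        (periodic (unicritical d a u w)).encard ≤ ((2 * 2 ^ (relevant d (d / 2)).card : ℕ) : ℕ∞))) ∧
    (∀ (d m : ℕ) (a u w : ℚ), d ≠ 0 → a ≠ 0 → (8 ∣ d ∧ m = d / 4) ∨ (12 ∣ d ∧ m = d / 2) →
      FifthFamily d m a u w → (∀ p ∈ relevant d m, padicValNat p d ≤ 4) →
        (relevant d m).card ≤ 2 → AtMostThree d a u w) := by
  refine ⟨?_, ?_, ?_, ?_, ?_, ?_⟩
  · intro d m h16 hE
    have h8 : (8 ∣ d ∧ m = d / 4) ∨ (12 ∣ d ∧ m = d / 2) := by
      rcases h16 with ⟨h1, h2⟩ | ⟨h1, h2⟩
      · exact Or.inl ⟨by omega, h2⟩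
      · exact Or.inr ⟨by omega, h2⟩
    have hd0 : d ≠ 0 := by omega
    have hE' : (F5.excd d m).card ≤ 2 := by
      rcases hE with hE | hE
      · refine (Finset.card_le_card ?_).trans hE
        intro p hp
        unfold F5.excd at hp
        unfold relevant
        rw [Finset.mem_filter] at hp
        rw [Finset.mem_filter, Finset.mem_filter]
        exact ⟨⟨hp.1, hp.2.1, hp.2.2.1⟩, hp.2.2.2⟩
      · exact F5.excd_le_two h16 hE
    obtain ⟨p, q, hpq⟩ := UC.subset_pair hE'
    have hmain : ∀ (i : ℤ) (u w : ℚ), AtMostThree d (2 ^ i) u w := fun i u w =>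
      atMostThree_of (UC.str_of hd0 h8) (zpow_ne_zero _ (by norm_num))
        (F5.hypS_mono (by omega) (by omega) i (w - u) hpq)
    refine ⟨hmain, fun c => mono_of (by omega) hd0 ?_⟩
    have := hmain 0 0 c
    rwa [zpow_zero'] at this
  · intro d m a u w hd0 ha hm h1 h2
    obtain ⟨p, q, hpq⟩ := UC.subset_pair h2
    exact atMostThree_of (UC.str_of hd0 hm) ha (F5.hypS_exc hd0 h1 hpq)
  · intro d m V A B hd0 hV hcop
    have h := F5.exc_normal m hd0 hV hcop
    unfold par
    rw [sub_zero]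
    exact h
  · intro d a u w hd0 ha
    have hb : ∀ m, F5.Big d m a (w - u) (exceptional d m (par d a u w)) :=
      fun m => F5.big_exc hd0 m a (w - u)
    refine ⟨fun hd => UC.transfer (fun x => UC.mem_per) (F5.per_A hd hd0 ha (hb _)),
      fun hd h1 h2 => ?_,
      fun hd => UC.transfer (fun x => UC.mem_per) (F5.per_A8 hd hd0 ha (hb _)),
      fun hd h3 => UC.transfer (fun x => UC.mem_per) (F5.per_B hd hd0 h3 ha (hb _)),
      fun hd => UC.transfer (fun x => UC.mem_per) (F5.per_B12 hd hd0 ha (hb _))⟩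
    obtain ⟨p, hp⟩ := UC.card_le_one_pair h2
    obtain ⟨e, rfl⟩ := hd
    exact UC.transfer (fun x => UC.mem_per)
      (F5.per_W ⟨e, by omega, rfl, by omega⟩ ha (F5.hypS_exc hd0 h1 hp))
  · intro d a u w hd0 ha
    exact ⟨fun hd hc => UC.transfer (fun x => UC.mem_per)
        (F5.per_A hd hd0 ha (F5.FifthF.big (c := w - u) hc hd0 ha)),
      fun hd h3 hc => UC.transfer (fun x => UC.mem_per)
        (F5.per_B hd hd0 h3 ha (F5.FifthF.big (c := w - u) hc hd0 ha))⟩
  · intro d m a u w hd0 ha hm hc hv h2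
    have hc' : F5.FifthF d m a (w - u) := hc
    obtain ⟨p, q, hpq⟩ := UC.subset_pair h2
    exact atMostThree_of (UC.str_of hd0 hm) ha (hc'.hypS hd0 ha hv hpq)

end Pool.Agent.Results.MP_c076ed_nt.FifthPowers
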